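import Pool.Agent.Helper73.SN.Stair

/-!
# Transversals of pairs of `n/2`-periodic sets in `ZMod n`
-/

set_option autoImplicit false
set_option linter.unusedSectionVars false
set_option linter.unusedVariables false

namespace Pool.Agent.Helper73.SN

open Finset Pool.Agent.Helper10.SN Pool.Agent.Helper7.SN

/-- A strictly increasing surjection of the integers is a translation. -/
lemma shift_of_strictMono (φ : ℤ → ℤ) (h : StrictMono φ) (hs : Function.Surjective φ) (i : ℤ) :
    φ i = i + φ 0 := by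
  have step : ∀ i, φ (i + 1) = φ i + 1 := by
    intro i
    have h1 : φ i < φ (i + 1) := h (by omega)
    by_contra hne
    obtain ⟨j, hj⟩ := hs (φ i + 1)
    have h2 : i < j := h.lt_iff_lt.1 (by rw [hj]; omega)
    have h3 : j < i + 1 := h.lt_iff_lt.1 (by rw [hj]; omega)
    omega
  induction i using Int.induction_on with
  | zero => simp
  | succ m ih => rw [step, ih]; ring
  | pred m ih =>
    have := step (-(m : ℤ) - 1)
    rw [sub_add_cancel, ih] at this
    linarith

lemma Enum.mem_iff {n : ℕ} {A : Finset (ZMod n)} {k : ℕ} {α : ℤ → ℤ} (hk : 0 < k)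
    (h : Enum A k α) (x : ℤ) : (x : ZMod n) ∈ A ↔ ∃ i, x = α i := by
  constructor
  · intro hx
    obtain ⟨i, _, hi⟩ := h.bij.surjOn hx
    simp only at hi
    rw [ZMod.intCast_eq_intCast_iff, Int.modEq_iff_dvd] at hi
    obtain ⟨c, hc⟩ := hi
    refine ⟨i + c * k, ?_⟩
    rw [h.seq.per_mul]
    linarith
  · rintro ⟨i, rfl⟩
    have hk' : (0 : ℤ) < k := by exact_mod_cast hk
    apply (h.bij_window hk i).mapsTo
    simp only [Finset.coe_Ico, Set.mem_Ico]
    omega

/-- A period of the set is a period of its enumeration. -/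
lemma Enum.shift_of_period {n : ℕ} {A : Finset (ZMod n)} {k : ℕ} {α : ℤ → ℤ} (hk : 0 < k)
    (h : Enum A k α) (g : ℤ) (hg : ∀ x : ZMod n, x ∈ A ↔ x + (g : ZMod n) ∈ A) :
    ∃ c : ℤ, ∀ i, α (i + c) = α i + g := by
  have h1 : ∀ i, ∃ j, α j = α i + g := by
    intro i
    have : ((α i + g : ℤ) : ZMod n) ∈ A := by
      push_cast
      rw [← hg]
      exact (Enum.mem_iff hk h _).2 ⟨i, rfl⟩
    obtain ⟨j, hj⟩ := (Enum.mem_iff hk h _).1 this
    exact ⟨j, hj.symm⟩
  have h2 : ∀ i, ∃ j, α j + g = α i := by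
    intro i
    have : ((α i - g : ℤ) : ZMod n) ∈ A := by
      push_cast
      rw [hg, sub_add_cancel]
      exact (Enum.mem_iff hk h _).2 ⟨i, rfl⟩
    obtain ⟨j, hj⟩ := (Enum.mem_iff hk h _).1 this
    exact ⟨j, by linarith⟩
  choose φ hφ using h1
  have hm : StrictMono φ := by
    intro i j hij
    apply h.seq.mono.lt_iff_lt.1
    rw [hφ, hφ]
    have := h.seq.mono hij
    linarith
  have hs : Function.Surjective φ := by
    intro i
    obtain ⟨j, hj⟩ := h2 i
    refine ⟨j, ?_⟩
    apply h.seq.mono.injective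
    rw [hφ, hj]
  refine ⟨φ 0, fun i => ?_⟩
  rw [← shift_of_strictMono φ hm hs i, hφ]

/-- A shift of the enumeration is a period of the set. -/
lemma Enum.period_of_shift {n : ℕ} {A : Finset (ZMod n)} {k : ℕ} {α : ℤ → ℤ} (hk : 0 < k)
    (h : Enum A k α) (g c : ℤ) (hc : ∀ i, α (i + c) = α i + g) :
    ∀ x : ZMod n, x ∈ A ↔ x + (g : ZMod n) ∈ A := by
  intro x
  obtain ⟨y, rfl⟩ := ZMod.intCast_surjective x
  have e : ((y : ℤ) : ZMod n) + (g : ZMod n) = ((y + g : ℤ) : ZMod n) := by push_cast; ring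
  rw [e, Enum.mem_iff hk h, Enum.mem_iff hk h]
  constructor
  · rintro ⟨i, rfl⟩
    exact ⟨i + c, (hc i).symm⟩
  · rintro ⟨i, hi⟩
    refine ⟨i - c, ?_⟩
    have := hc (i - c)
    rw [sub_add_cancel] at this
    linarith

/-- the common periods -/
def comP {n : ℕ} (A B : Finset (ZMod n)) : AddSubgroup ℤ where
  carrier := {g | (∀ x : ZMod n, x ∈ A ↔ x + (g : ZMod n) ∈ A) ∧
    (∀ x : ZMod n, x ∈ B ↔ x + (g : ZMod n) ∈ B)}
  add_mem' := by
    rintro a b ⟨a1, a2⟩ ⟨b1, b2⟩
    refine ⟨fun x => ?_, fun x => ?_⟩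
    · rw [a1, b1 (x + a)]; push_cast; rw [add_assoc]
    · rw [a2, b2 (x + a)]; push_cast; rw [add_assoc]
  zero_mem' := by simp
  neg_mem' := by
    rintro a ⟨a1, a2⟩
    refine ⟨fun x => ?_, fun x => ?_⟩
    · rw [a1 (x + ((-a : ℤ) : ZMod n))]; push_cast; rw [neg_add_cancel_right]
    · rw [a2 (x + ((-a : ℤ) : ZMod n))]; push_cast; rw [neg_add_cancel_right]

lemma mem_comP {n : ℕ} (A B : Finset (ZMod n)) (g : ℤ) : g ∈ comP A B ↔
    (∀ x : ZMod n, x ∈ A ↔ x + (g : ZMod n) ∈ A) ∧ (∀ x : ZMod n, x ∈ B ↔ x + (g : ZMod n) ∈ B) :=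
  Iff.rfl

/-- If no shift has a simply hit residue then there is a smaller common period. -/
lemma smaller_period {q k : ℕ} (hq : 0 < q) (hk : 1 < k) {α β : ℤ → ℤ} (hα : CycSeq q k α)
    (hβ : CycSeq q k β)
    (h1 : ∀ i j : ℤ, ∃ t : ℤ, 0 < t ∧ t < 2 * k ∧
      pp (fun l => α (l + i)) (fun l => β (l + j)) 0 + q =
        pp (fun l => α (l + i)) (fun l => β (l + j)) t)
    (h2 : ∀ i j : ℤ, ∃ t : ℤ, 0 < t ∧ t < 2 * k ∧
      pp (fun l => β (l + j)) (fun l => α (l + i)) 0 + q =
        pp (fun l => β (l + j)) (fun l => α (l + i)) t) :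
    ∃ g c c' : ℤ, 0 < g ∧ g < q ∧ (∀ i, α (i + c) = α i + g) ∧ (∀ i, β (i + c') = β i + g) := by
  have hq' : (0 : ℤ) < q := by exact_mod_cast hq
  have hk' : (1 : ℤ) < k := by exact_mod_cast hk
  -- `p (s + k) = p s + q` for every alignment
  have key : ∀ d s : ℤ, pp α (fun l => β (l + d)) (s + k) = pp α (fun l => β (l + d)) s + q := by
    intro d
    have hβd := hβ.shift d
    have pm := pp_mono hα.mono hβd.mono
    have ex : ∀ s : ℤ, ∃ s' : ℤ, pp α (fun l => β (l + d)) s' = pp α (fun l => β (l + d)) s + q := by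
      intro s
      obtain ⟨i, rfl | rfl⟩ : ∃ i : ℤ, s = 2 * i ∨ s = 2 * i + 1 := ⟨s / 2, by omega⟩
      · obtain ⟨t, _, _, ht⟩ := h1 i (i + d)
        refine ⟨2 * i + t, ?_⟩
        rw [pp_even]
        have e0 : pp (fun l => α (l + i)) (fun l => β (l + (i + d))) 0 = α i + β (i + d) := by
          unfold pp; simp
        rw [e0] at ht
        rw [ht]
        unfold pp
        simp only
        rw [show (2 * i + t) / 2 = t / 2 + i by omega,
          show (2 * i + t + 1) / 2 + d = (t + 1) / 2 + (i + d) by omega]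
      · obtain ⟨t, _, _, ht⟩ := h2 i (i + 1 + d)
        refine ⟨2 * i + 1 + t, ?_⟩
        rw [pp_odd]
        have e0 : pp (fun l => β (l + (i + 1 + d))) (fun l => α (l + i)) 0 = α i + β (i + 1 + d) := by
          unfold pp; simp; ring
        rw [e0] at ht
        rw [ht]
        unfold pp
        simp only
        rw [show (2 * i + 1 + t) / 2 = (t + 1) / 2 + i by omega,
          show (2 * i + 1 + t + 1) / 2 + d = t / 2 + (i + 1 + d) by omega]
        ring
    choose φ hφ using ex
    have hm : StrictMono φ := by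
      intro a b hab
      apply pm.lt_iff_lt.1
      rw [hφ, hφ]
      have := pm hab
      linarith
    have hφφ : ∀ s, φ (φ s) = s + 2 * k := by
      intro s
      apply pm.injective
      rw [pp_per hα hβd, hφ, hφ]
      ring
    have hs : Function.Surjective φ := by
      intro y
      refine ⟨φ (y - 2 * k), ?_⟩
      rw [hφφ]; ring
    have hsh := shift_of_strictMono φ hm hs
    have hc : φ 0 = k := by
      have e1 := hφφ 0
      have e2 := hsh (φ 0)
      rw [e1] at e2
      omega
    intro s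
    rw [← hc, ← hsh s, hφ]
  obtain ⟨l, hl | hl⟩ : ∃ l : ℤ, (k : ℤ) = 2 * l ∨ (k : ℤ) = 2 * l + 1 := ⟨(k : ℤ) / 2, by omega⟩
  · -- `k` even
    have e : ∀ i j : ℤ, α (i + l) + β (j + l) = α i + β j + q := by
      intro i j
      have := key (j - i) (2 * i)
      rw [hl, show 2 * i + 2 * l = 2 * (i + l) by ring, pp_even, pp_even] at this
      rw [show i + l + (j - i) = j + l by ring, show i + (j - i) = j by ring] at this
      exact this
    set g := α (0 + l) - α 0 with hg
    have hb : ∀ j, β (j + l) = β j + (q - g) := by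
      intro j
      have := e 0 j
      linarith
    have ha : ∀ i, α (i + l) = α i + g := by
      intro i
      have h3 := e i 0
      have h4 := hb 0
      linarith
    have h5 : 2 * g = q := by
      have h6 := hα.per 0
      rw [hl, show (0 : ℤ) + 2 * l = (0 + l) + l by ring, ha, ha] at h6
      linarith
    refine ⟨g, l, l, by omega, by omega, ha, fun i => ?_⟩
    rw [hb]
    linarith
  · -- `k` odd
    have e : ∀ i j : ℤ, α (i + l) + β (j + l + 1) = α i + β j + q := by
      intro i j
      have := key (j - i) (2 * i)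
      rw [hl, show 2 * i + (2 * l + 1) = 2 * (i + l) + 1 by ring, pp_even, pp_odd] at this
      rw [show i + l + 1 + (j - i) = j + l + 1 by ring, show i + (j - i) = j by ring] at this
      exact this
    set a0 := α (0 + l) - α 0 with ha0
    have hb : ∀ j, β (j + l + 1) = β j + (q - a0) := by
      intro j
      have := e 0 j
      linarith
    have ha : ∀ i, α (i + l) = α i + a0 := by
      intro i
      have h3 := e i 0
      have h4 := hb 0
      linarith
    have ga : ∀ i, α (i + 1) = α i + (q - 2 * a0) := by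
      intro i
      have h6 := hα.per i
      rw [hl, show i + (2 * l + 1) = (i + 1 + l) + l by ring, ha, ha] at h6
      linarith
    have gb : ∀ i, β (i + 1) = β i + (q - 2 * a0) := by
      intro i
      have h6 := hβ.per (i + 1)
      rw [hl, show i + 1 + (2 * l + 1) = (i + l + 1) + l + 1 by ring, hb, hb] at h6
      linarith
    refine ⟨q - 2 * a0, 1, 1, ?_, ?_, ga, gb⟩
    · have := hα.mono (show (0 : ℤ) < 0 + 1 by omega)
      rw [ga] at this
      linarith
    · have h7 := hα.mono (show (0 : ℤ) + 1 < 0 + k by omega)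
      rw [ga, hα.per] at h7
      linarith

/-- **Theorem P.** Two sets of the same size, both invariant under `x ↦ x + n / 2`, have a
transversal unless they are cosets of one subgroup of even order. -/
theorem perP {n : ℕ} (hn0 : 0 < n) (hn : Even n) (A B : Finset (ZMod n)) (hc : A.card = B.card)
    (hA : ∀ x ∈ A, x + ((n / 2 : ℕ) : ZMod n) ∈ A)
    (hB : ∀ x ∈ B, x + ((n / 2 : ℕ) : ZMod n) ∈ B) : Tr A B ∨ CosPair A B := by
  classical
  rcases A.eq_empty_or_nonempty with hAe | hAne
  · left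
    have : B = ∅ := by rw [← Finset.card_eq_zero, ← hc, hAe, Finset.card_empty]
    rw [hAe, this]
    exact tr_empty
  have hK0 : 0 < A.card := Finset.card_pos.2 hAne
  have hBne : B.Nonempty := by rw [← Finset.card_pos, ← hc]; exact hK0
  obtain ⟨α, hα⟩ := exists_enum hn0 A hAne
  obtain ⟨β, hβ⟩ := exists_enum hn0 B hBne
  rw [← hc] at hβ
  have hn' : (0 : ℤ) < n := by exact_mod_cast hn0
  have hh : ((n / 2 : ℕ) : ZMod n) + ((n / 2 : ℕ) : ZMod n) = 0 := by
    rw [← Nat.cast_add]
    have : n / 2 + n / 2 = n := by obtain ⟨r, hr⟩ := hn; omega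
    rw [this, ZMod.natCast_self]
  -- the group of common periods
  have hnP : (n : ℤ) ∈ comP A B := by
    rw [mem_comP]
    constructor <;> intro x <;> simp
  have hhP : ((n / 2 : ℕ) : ℤ) ∈ comP A B := by
    rw [mem_comP]
    constructor
    · intro x
      rw [Int.cast_natCast]
      constructor
      · exact fun hx => hA x hx
      · intro hx
        have h1 := hA _ hx
        rw [add_assoc, hh, add_zero] at h1
        exact h1
    · intro x
      rw [Int.cast_natCast]
      constructor
      · exact fun hx => hB x hx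
      · intro hx
        have h1 := hB _ hx
        rw [add_assoc, hh, add_zero] at h1
        exact h1
  obtain ⟨q0, hq0⟩ := Int.subgroup_cyclic (comP A B)
  have hmemq : ∀ g : ℤ, g ∈ comP A B ↔ (q0.natAbs : ℤ) ∣ g := by
    intro g
    rw [hq0, AddSubgroup.mem_closure_singleton]
    rw [Int.natAbs_dvd]
    constructor
    · rintro ⟨c, rfl⟩
      rw [smul_eq_mul]
      exact Dvd.intro_left _ rfl
    · rintro ⟨c, rfl⟩
      exact ⟨c, by rw [smul_eq_mul, mul_comm]⟩
  set q := q0.natAbs with hq
  have hqn : (q : ℤ) ∣ n := (hmemq n).1 hnP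
  have hqh : (q : ℤ) ∣ ((n / 2 : ℕ) : ℤ) := (hmemq _).1 hhP
  have hqn' : q ∣ n := by exact_mod_cast hqn
  have hqh' : q ∣ n / 2 := by exact_mod_cast hqh
  have hqpos : 0 < q := Nat.pos_of_dvd_of_pos hqn' hn0
  obtain ⟨μ, hμ⟩ := hqh'
  have hnq : n = q * (2 * μ) := by
    have : n = 2 * (n / 2) := by obtain ⟨r, hr⟩ := hn; omega
    rw [this, hμ]; ring
  have hμpos : 0 < μ := by
    rcases Nat.eq_zero_or_pos μ with h | h
    · rw [h] at hnq; simp at hnq; omega
    · exact h
  have hq' : (0 : ℤ) < q := by exact_mod_cast hqpos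
  have hμ' : (0 : ℤ) < μ := by exact_mod_cast hμpos
  have hnz : (n : ℤ) = q * (2 * μ) := by rw [hnq]; push_cast; ring
  have hqP : (q : ℤ) ∈ comP A B := (hmemq q).2 dvd_rfl
  obtain ⟨ca, hca⟩ := Enum.shift_of_period hK0 hα q ((mem_comP A B q).1 hqP).1
  obtain ⟨cb, hcb⟩ := Enum.shift_of_period hK0 hβ q ((mem_comP A B q).1 hqP).2
  -- both shifts agree
  have iter : ∀ (γ : ℤ → ℤ) (c : ℤ), (∀ i, γ (i + c) = γ i + q) → ∀ (m : ℕ) (i : ℤ),
      γ (i + m * c) = γ i + m * q := by
    intro γ c hγ m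
    induction m with
    | zero => intro i; simp
    | succ m ih =>
      intro i
      rw [show i + ((m + 1 : ℕ) : ℤ) * c = (i + m * c) + c by push_cast; ring, hγ, ih]
      push_cast; ring
  have hKa : (A.card : ℤ) = (2 * μ) * ca := by
    have h1 := iter α ca hca (2 * μ) 0
    have h2 := hα.seq.per 0
    have h3 : α (0 + ((2 * μ : ℕ) : ℤ) * ca) = α (0 + (A.card : ℤ)) := by
      rw [h1, h2, hnz]; push_cast; ring
    have := hα.seq.mono.injective h3
    push_cast at this
    linarith
  have hKb : (A.card : ℤ) = (2 * μ) * cb := by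
    have h1 := iter β cb hcb (2 * μ) 0
    have h2 := hβ.seq.per 0
    have h3 : β (0 + ((2 * μ : ℕ) : ℤ) * cb) = β (0 + (A.card : ℤ)) := by
      rw [h1, h2, hnz]; push_cast; ring
    have := hβ.seq.mono.injective h3
    push_cast at this
    linarith
  have hcc : cb = ca := by
    have : (2 * (μ : ℤ)) * cb = (2 * μ) * ca := by rw [← hKa, ← hKb]
    exact mul_left_cancel₀ (by omega) this
  have hcapos : 0 < ca := by
    have h1 : (0 : ℤ) < A.card := by exact_mod_cast hK0
    rw [hKa] at h1
    by_contra hcon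
    nlinarith
  obtain ⟨k, rfl⟩ : ∃ k : ℕ, ca = k := ⟨ca.toNat, by omega⟩
  rw [hcc] at hcb
  have hkpos : 0 < k := by omega
  have hcA : A.card = k * (2 * μ) := by
    have : (A.card : ℤ) = ((k * (2 * μ) : ℕ) : ℤ) := by rw [hKa]; push_cast; ring
    exact_mod_cast this
  have hcB : B.card = k * (2 * μ) := by rw [← hc, hcA]
  have sα : CycSeq q k α := ⟨hα.seq.mono, hca⟩
  have sβ : CycSeq q k β := ⟨hβ.seq.mono, hcb⟩
  have mA : ∀ i, (α i : ZMod n) ∈ A := fun i => (Enum.mem_iff hK0 hα _).2 ⟨i, rfl⟩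
  have mB : ∀ i, (β i : ZMod n) ∈ B := fun i => (Enum.mem_iff hK0 hβ _).2 ⟨i, rfl⟩
  rcases Nat.lt_or_ge 1 k with hk1 | hk1
  · -- at least two residues
    left
    by_cases h1 : ∀ i j : ℤ, ∃ t : ℤ, 0 < t ∧ t < 2 * k ∧
        pp (fun l => α (l + i)) (fun l => β (l + j)) 0 + q =
          pp (fun l => α (l + i)) (fun l => β (l + j)) t
    · by_cases h2 : ∀ i j : ℤ, ∃ t : ℤ, 0 < t ∧ t < 2 * k ∧
          pp (fun l => β (l + j)) (fun l => α (l + i)) 0 + q =
            pp (fun l => β (l + j)) (fun l => α (l + i)) t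
      · exfalso
        obtain ⟨g, c, c', g1, g2, g3, g4⟩ := smaller_period hqpos hk1 sα sβ h1 h2
        have : g ∈ comP A B := by
          rw [mem_comP]
          exact ⟨Enum.period_of_shift hK0 hα g c g3, Enum.period_of_shift hK0 hβ g c' g4⟩
        rw [hmemq] at this
        have := Int.le_of_dvd g1 this
        omega
      · push Not at h2
        obtain ⟨i, j, h2⟩ := h2
        apply Tr.symm
        exact stair hqpos hμpos hkpos hnq B A (fun l => β (l + j)) (fun l => α (l + i))
          (sβ.shift j) (sα.shift i) (fun l => mB _) (fun l => mA _) hcB hcA h2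
    · push Not at h1
      obtain ⟨i, j, h1⟩ := h1
      exact stair hqpos hμpos hkpos hnq A B (fun l => α (l + i)) (fun l => β (l + j))
        (sα.shift i) (sβ.shift j) (fun l => mA _) (fun l => mB _) hcA hcB h1
  · -- one residue: cosets
    right
    have hk1' : k = 1 := by omega
    subst hk1'
    refine ⟨AddSubgroup.zmultiples ((q : ℕ) : ZMod n), ?_, (α 0 : ZMod n), (β 0 : ZMod n), ?_, ?_⟩
    · rw [Nat.card_zmultiples, ZMod.addOrderOf_coe _ hn0.ne', Nat.gcd_eq_right hqn', hnq,
        Nat.mul_div_cancel_left _ hqpos]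
      exact even_two_mul μ
    · intro x
      obtain ⟨y, rfl⟩ := ZMod.intCast_surjective x
      rw [AddSubgroup.mem_zmultiples_iff, Enum.mem_iff hK0 hα]
      constructor
      · rintro ⟨i, rfl⟩
        refine ⟨i, ?_⟩
        have := sα.per_mul 0 i
        rw [show (0 : ℤ) + i * ((1 : ℕ) : ℤ) = i by push_cast; ring] at this
        rw [this]
        push_cast
        rw [zsmul_eq_mul]
        ring
      · rintro ⟨c, hc'⟩
        rw [zsmul_eq_mul] at hc'
        have h3 : ((c * q : ℤ) : ZMod n) = ((y - α 0 : ℤ) : ZMod n) := by push_cast; exact hc'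
        rw [ZMod.intCast_eq_intCast_iff, Int.modEq_iff_dvd] at h3
        obtain ⟨e, he⟩ := h3
        refine ⟨c + e * (2 * μ), ?_⟩
        have := sα.per_mul 0 (c + e * (2 * μ))
        rw [show (0 : ℤ) + (c + e * (2 * (μ : ℤ))) * ((1 : ℕ) : ℤ) = c + e * (2 * μ) by
          push_cast; ring] at this
        rw [this]
        rw [hnz] at he
        linarith
    · intro x
      obtain ⟨y, rfl⟩ := ZMod.intCast_surjective x
      rw [AddSubgroup.mem_zmultiples_iff, Enum.mem_iff hK0 hβ]
      constructor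
      · rintro ⟨i, rfl⟩
        refine ⟨i, ?_⟩
        have := sβ.per_mul 0 i
        rw [show (0 : ℤ) + i * ((1 : ℕ) : ℤ) = i by push_cast; ring] at this
        rw [this]
        push_cast
        rw [zsmul_eq_mul]
        ring
      · rintro ⟨c, hc'⟩
        rw [zsmul_eq_mul] at hc'
        have h3 : ((c * q : ℤ) : ZMod n) = ((y - β 0 : ℤ) : ZMod n) := by push_cast; exact hc'
        rw [ZMod.intCast_eq_intCast_iff, Int.modEq_iff_dvd] at h3
        obtain ⟨e, he⟩ := h3
        refine ⟨c + e * (2 * μ), ?_⟩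
        have := sβ.per_mul 0 (c + e * (2 * μ))
        rw [show (0 : ℤ) + (c + e * (2 * (μ : ℤ))) * ((1 : ℕ) : ℤ) = c + e * (2 * μ) by
          push_cast; ring] at this
        rw [this]
        rw [hnz] at he
        linarith

end Pool.Agent.Helper73.SN
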