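import Pool.Agent.Helper10.SN.Crit
import Pool.Agent.Helper7.SN.Base

/-!
# Pairs of periodic sets in even cyclic groups: the staircase construction
-/

set_option autoImplicit false
set_option linter.unusedSectionVars false
set_option linter.unusedVariables false

namespace Pool.Agent.Helper73.SN

open Finset Pool.Agent.Helper10.SN Pool.Agent.Helper7.SN

/-- the sums of two neighbouring sorted matchings, in increasing order -/
def pp (α β : ℤ → ℤ) (t : ℤ) : ℤ := α (t / 2) + β ((t + 1) / 2)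

lemma pp_even (α β : ℤ → ℤ) (i : ℤ) : pp α β (2 * i) = α i + β i := by
  unfold pp
  rw [show (2 * i) / 2 = i by omega, show (2 * i + 1) / 2 = i by omega]

lemma pp_odd (α β : ℤ → ℤ) (i : ℤ) : pp α β (2 * i + 1) = α i + β (i + 1) := by
  unfold pp
  rw [show (2 * i + 1) / 2 = i by omega, show (2 * i + 1 + 1) / 2 = i + 1 by omega]

lemma pp_mono {α β : ℤ → ℤ} (hα : StrictMono α) (hβ : StrictMono β) : StrictMono (pp α β) := by
  apply strictMono_int_of_lt_succ
  intro t
  obtain ⟨i, rfl | rfl⟩ : ∃ i : ℤ, t = 2 * i ∨ t = 2 * i + 1 := ⟨t / 2, by omega⟩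
  · rw [pp_even, pp_odd]
    have := hβ (show i < i + 1 by omega)
    linarith
  · rw [pp_odd, show 2 * i + 1 + 1 = 2 * (i + 1) by ring, pp_even]
    have := hα (show i < i + 1 by omega)
    linarith

lemma pp_per {q k : ℕ} {α β : ℤ → ℤ} (hα : CycSeq q k α) (hβ : CycSeq q k β) (t : ℤ) :
    pp α β (t + 2 * k) = pp α β t + 2 * q := by
  obtain ⟨i, rfl | rfl⟩ : ∃ i : ℤ, t = 2 * i ∨ t = 2 * i + 1 := ⟨t / 2, by omega⟩
  · rw [show 2 * i + 2 * (k : ℤ) = 2 * (i + k) by ring, pp_even, pp_even, hα.per, hβ.per]; ring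
  · rw [show 2 * i + 1 + 2 * (k : ℤ) = 2 * (i + k) + 1 by ring, pp_odd, pp_odd, hα.per,
      show i + (k : ℤ) + 1 = (i + 1) + k by ring, hβ.per]; ring

/-- a divisible difference of two members of the sequence comes from a shift of the index -/
lemma CycSeq.shift_of_dvd {q k : ℕ} {α : ℤ → ℤ} (h : CycSeq q k α) {i j : ℤ}
    (hd : (q : ℤ) ∣ α i - α j) : ∃ c : ℤ, i = j + c * k ∧ α i = α j + c * q := by
  obtain ⟨c, hc⟩ := hd
  have h1 := h.per_mul j c
  have h2 : α i = α j + c * q := by linarith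
  refine ⟨c, ?_, h2⟩
  apply h.mono.injective
  rw [h1, h2]

open Classical in
/-- the shift of the sums on the edge `t` -/
noncomputable def WW (α β : ℤ → ℤ) (q μ : ℤ) (t : ℤ) : ℤ :=
  if ∃ s : ℤ, 0 ≤ s ∧ pp α β s + q = pp α β t then μ - 1 else 0

noncomputable def zz (α β : ℤ → ℤ) (q μ : ℤ) (t : ℤ) : ℤ :=
  WW α β q μ t + (if t % 2 = 1 then 1 + μ else 0)

noncomputable def vv (α β : ℤ → ℤ) (q μ : ℤ) (k : ℤ) (t : ℤ) : ℤ :=
  ∑ s ∈ Finset.Ico (t + 1) (2 * k), zz α β q μ s

lemma vv_last (α β : ℤ → ℤ) (q μ k : ℤ) : vv α β q μ k (2 * k - 1) = 0 := by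
  unfold vv
  rw [sub_add_cancel, Finset.Ico_self, Finset.sum_empty]

lemma vv_step (α β : ℤ → ℤ) (q μ k t : ℤ) (ht : t < 2 * k) :
    vv α β q μ k (t - 1) = vv α β q μ k t + zz α β q μ t := by
  unfold vv
  rw [sub_add_cancel]
  have : Finset.Ico t (2 * k) = insert t (Finset.Ico (t + 1) (2 * k)) := by
    ext x; simp only [Finset.mem_Ico, Finset.mem_insert]; omega
  rw [this, Finset.sum_insert (by simp)]
  ring

/-- row label of the cell `(t, τ)` -/
noncomputable def LR (α β : ℤ → ℤ) (q μ k : ℤ) (t τ : ℤ) : ℤ :=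
  if t = 0 then vv α β q μ k 0 - 2 * τ
  else if t % 2 = 0 then - vv α β q μ k t - 2 * τ
  else zz α β q μ t - vv α β q μ k t - 1 - 2 * μ - 2 * τ

/-- column label of the cell `(t, τ)` -/
noncomputable def LC (α β : ℤ → ℤ) (q μ k : ℤ) (t τ : ℤ) : ℤ :=
  if t = 0 then 1 + τ
  else if t % 2 = 0 then vv α β q μ k t + zz α β q μ t + τ
  else vv α β q μ k t + μ + τ

lemma LR_add_LC (α β : ℤ → ℤ) (q μ k t τ : ℤ) (ht : t ≠ 0) :
    LR α β q μ k t τ + LC α β q μ k t τ = WW α β q μ t - τ := by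
  unfold LR LC
  rw [if_neg ht, if_neg ht]
  by_cases h : t % 2 = 0
  · rw [if_pos h, if_pos h]
    unfold zz
    rw [if_neg (by omega)]
    ring
  · rw [if_neg h, if_neg h]
    unfold zz
    rw [if_pos (by omega)]
    ring

lemma LR_add_LC_zero (α β : ℤ → ℤ) (q μ k τ : ℤ) :
    LR α β q μ k 0 τ + LC α β q μ k 0 τ = vv α β q μ k 0 + 1 - τ := by
  unfold LR LC
  rw [if_pos rfl, if_pos rfl]
  ring

/-- parity of the row labels -/
lemma LR_parity (α β : ℤ → ℤ) (q μ k i τ : ℤ) (hi : 0 ≤ i) (hik : i < k) :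
    LR α β q μ k (2 * i) τ % 2 = vv α β q μ k (2 * i) % 2 ∧
    LR α β q μ k (2 * i + 1) τ % 2 = (vv α β q μ k (2 * i) + 1) % 2 := by
  constructor
  · unfold LR
    by_cases h : 2 * i = 0
    · rw [if_pos h, h]; omega
    · rw [if_neg h, if_pos (by omega)]; omega
  · unfold LR
    rw [if_neg (by omega), if_neg (by omega)]
    have h1 := vv_step α β q μ k (2 * i + 1) (by omega)
    rw [show 2 * i + 1 - 1 = 2 * i by ring] at h1
    rw [h1]
    omega

/-- difference of the row labels on one edge -/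
lemma LR_diff (α β : ℤ → ℤ) (q μ k t τ τ' : ℤ) :
    LR α β q μ k t τ - LR α β q μ k t τ' = 2 * (τ' - τ) := by
  unfold LR
  split_ifs <;> ring

lemma LC_diff (α β : ℤ → ℤ) (q μ k t τ τ' : ℤ) :
    LC α β q μ k t τ - LC α β q μ k t τ' = τ - τ' := by
  unfold LC
  split_ifs <;> ring

/-- the two edges at an inner column -/
lemma LC_inner (α β : ℤ → ℤ) (q μ k j τ τ' : ℤ) (hj : 0 < j) (hjk : j < k) :
    LC α β q μ k (2 * j - 1) τ - LC α β q μ k (2 * j) τ' = μ + τ - τ' := by
  unfold LC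
  rw [if_neg (by omega), if_neg (by omega), if_neg (by omega), if_pos (by omega)]
  have h1 := vv_step α β q μ k (2 * j) (by omega)
  rw [h1]
  ring

lemma LC_outer (α β : ℤ → ℤ) (q μ k τ τ' : ℤ) (hk : 0 < k) :
    LC α β q μ k (2 * k - 1) τ + 1 - LC α β q μ k 0 τ' = μ + τ - τ' := by
  unfold LC
  rw [if_neg (by omega), if_neg (by omega), if_pos rfl, vv_last]
  ring

lemma not_dvd_of_bounds {M x : ℤ} (h1 : 0 < x) (h2 : x < M) : ¬ M ∣ x := by
  intro h
  have := Int.le_of_dvd h1 h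
  omega

lemma dvd_cases {q' M c L : ℤ} {x y : ℤ} (hq : 0 < q') (hxy : x = y + c * q')
    (h : q' * M ∣ x - y + q' * L) : M ∣ c + L := by
  have : x - y + q' * L = q' * (c + L) := by rw [hxy]; ring
  rw [this] at h
  exact Int.dvd_of_mul_dvd_mul_left hq.ne' h

/-- **The staircase construction.** -/
theorem stair {n q μ k : ℕ} (hq : 0 < q) (hμ : 0 < μ) (hk : 0 < k) (hn : n = q * (2 * μ))
    (A B : Finset (ZMod n)) (α β : ℤ → ℤ) (hα : CycSeq q k α) (hβ : CycSeq q k β)
    (hA : ∀ i, (α i : ZMod n) ∈ A) (hB : ∀ i, (β i : ZMod n) ∈ B)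
    (hcA : A.card = k * (2 * μ)) (hcB : B.card = k * (2 * μ))
    (hs : ∀ t : ℤ, 0 < t → t < 2 * k → pp α β 0 + q ≠ pp α β t) : Tr A B := by
  classical
  have hq' : (0 : ℤ) < q := by exact_mod_cast hq
  have hμ' : (0 : ℤ) < μ := by exact_mod_cast hμ
  have hk' : (0 : ℤ) < k := by exact_mod_cast hk
  have hn0 : 0 < n := by rw [hn]; positivity
  have hnz : (n : ℤ) = q * (2 * μ) := by rw [hn]; push_cast; ring
  have pm := pp_mono hα.mono hβ.mono
  set I : Finset (ℤ × ℤ) := Finset.Ico (0 : ℤ) (2 * k) ×ˢ Finset.Ico (0 : ℤ) μ with hI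
  set R : ℤ × ℤ → ℤ := fun x => α (x.1 / 2) + q * LR α β q μ k x.1 x.2 with hR
  set C : ℤ × ℤ → ℤ := fun x => β ((x.1 + 1) / 2) + q * LC α β q μ k x.1 x.2 with hC
  have hmem : ∀ x ∈ I, 0 ≤ x.1 ∧ x.1 < 2 * k ∧ 0 ≤ x.2 ∧ x.2 < μ := by
    intro x hx
    rw [hI, Finset.mem_product, Finset.mem_Ico, Finset.mem_Ico] at hx
    exact ⟨hx.1.1, hx.1.2, hx.2.1, hx.2.2⟩
  have hIc : I.card = k * (2 * μ) := by
    rw [hI, Finset.card_product, Int.card_Ico, Int.card_Ico]
    rw [show ((2 * (k : ℤ) - 0).toNat) = 2 * k by omega, show (((μ : ℤ) - 0).toNat) = μ by omega]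
    ring
  -- rows
  have hRA : ∀ x, (R x : ZMod n) ∈ A := by
    intro x
    have := hα.per_mul (x.1 / 2) (LR α β q μ k x.1 x.2)
    rw [hR]
    simp only
    rw [mul_comm, ← this]
    exact hA _
  have hCB : ∀ x, (C x : ZMod n) ∈ B := by
    intro x
    have := hβ.per_mul ((x.1 + 1) / 2) (LC α β q μ k x.1 x.2)
    rw [hC]
    simp only
    rw [mul_comm, ← this]
    exact hB _
  have hRinj : Set.InjOn (fun x => (R x : ZMod n)) (I : Set (ℤ × ℤ)) := by
    rintro ⟨t, τ⟩ hx ⟨t', τ'⟩ hy hxy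
    obtain ⟨a1, a2, a3, a4⟩ := hmem _ hx
    obtain ⟨b1, b2, b3, b4⟩ := hmem _ hy
    simp only at a1 a2 a3 a4 b1 b2 b3 b4
    have hd : (n : ℤ) ∣ R (t, τ) - R (t', τ') := by
      rw [← ZMod.intCast_zmod_eq_zero_iff_dvd]
      push_cast
      simp only at hxy
      rw [hxy, sub_self]
    rw [hnz, hR] at hd
    simp only at hd
    have hd1 : (q : ℤ) ∣ α (t / 2) - α (t' / 2) := by
      have h1 : (q : ℤ) ∣ α (t / 2) + q * LR α β q μ k t τ - (α (t' / 2) + q * LR α β q μ k t' τ') :=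
        dvd_trans (Dvd.intro _ rfl) hd
      have h2 : α (t / 2) - α (t' / 2) = (α (t / 2) + q * LR α β q μ k t τ -
        (α (t' / 2) + q * LR α β q μ k t' τ')) - q * (LR α β q μ k t τ - LR α β q μ k t' τ') := by ring
      rw [h2]
      exact dvd_sub h1 (Dvd.intro _ rfl)
    obtain ⟨c, hc1, hc2⟩ := CycSeq.shift_of_dvd hα hd1
    have hc0 : c = 0 := by
      by_contra hne
      rcases lt_or_gt_of_ne hne with h2 | h2
      · have : c * k ≤ - k := by nlinarith
        omega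
      · have : (k : ℤ) ≤ c * k := by nlinarith
        omega
    have hM : 2 * (μ : ℤ) ∣ c + (LR α β q μ k t τ - LR α β q μ k t' τ') := by
      apply dvd_cases hq' hc2
      convert hd using 1
      ring
    rw [hc0, zero_add] at hM
    rw [hc0, zero_mul, add_zero] at hc1
    -- same row
    have htt : t = t' := by
      by_contra hne
      obtain ⟨w, hw⟩ := hM
      obtain ⟨i, hi⟩ : ∃ i : ℤ, t / 2 = i := ⟨_, rfl⟩
      have hpar := LR_parity α β q μ k i τ (by omega) (by omega)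
      have hpar' := LR_parity α β q μ k i τ' (by omega) (by omega)
      rcases (by omega : (t = 2 * i ∧ t' = 2 * i + 1) ∨ (t = 2 * i + 1 ∧ t' = 2 * i)) with h | h
      · rw [h.1, h.2] at hw
        have hw2 : LR α β q μ k (2 * i) τ - LR α β q μ k (2 * i + 1) τ' = 2 * (μ * w) := by
          rw [hw]; ring
        omega
      · rw [h.1, h.2] at hw
        have hw2 : LR α β q μ k (2 * i + 1) τ - LR α β q μ k (2 * i) τ' = 2 * (μ * w) := by
          rw [hw]; ring
        omega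
    subst htt
    rw [LR_diff] at hM
    have hM2 : (μ : ℤ) ∣ τ' - τ := by
      exact Int.dvd_of_mul_dvd_mul_left two_ne_zero hM
    have : τ' - τ = 0 := Int.eq_zero_of_abs_lt_dvd hM2 (by rw [abs_lt]; constructor <;> omega)
    rw [Prod.mk.injEq]
    exact ⟨rfl, by omega⟩
  have hCinj : Set.InjOn (fun x => (C x : ZMod n)) (I : Set (ℤ × ℤ)) := by
    -- one direction for the two edges at an inner/outer column
    have key : ∀ t τ t' τ' : ℤ, 0 ≤ t → t < 2 * k → 0 ≤ τ → τ < μ → 0 ≤ t' → t' < 2 * k → 0 ≤ τ' →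
        τ' < μ → (n : ℤ) ∣ C (t, τ) - C (t', τ') → ¬ (t' < t) := by
      intro t τ t' τ' a1 a2 a3 a4 b1 b2 b3 b4 hd hlt
      rw [hnz, hC] at hd
      simp only at hd
      have hd1 : (q : ℤ) ∣ β ((t + 1) / 2) - β ((t' + 1) / 2) := by
        have h1 : (q : ℤ) ∣ β ((t + 1) / 2) + q * LC α β q μ k t τ -
            (β ((t' + 1) / 2) + q * LC α β q μ k t' τ') := dvd_trans (Dvd.intro _ rfl) hd
        have h2 : β ((t + 1) / 2) - β ((t' + 1) / 2) = (β ((t + 1) / 2) + q * LC α β q μ k t τ -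
          (β ((t' + 1) / 2) + q * LC α β q μ k t' τ')) -
            q * (LC α β q μ k t τ - LC α β q μ k t' τ') := by ring
        rw [h2]
        exact dvd_sub h1 (Dvd.intro _ rfl)
      obtain ⟨c, hc1, hc2⟩ := CycSeq.shift_of_dvd hβ hd1
      have hM : 2 * (μ : ℤ) ∣ c + (LC α β q μ k t τ - LC α β q μ k t' τ') := by
        apply dvd_cases hq' hc2
        convert hd using 1
        ring
      have hc : c = 0 ∨ c = 1 := by
        have h1 : c < 2 := by
          by_contra hcon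
          have : 2 * (k : ℤ) ≤ c * k := by nlinarith
          omega
        have h2 : -1 < c := by
          by_contra hcon
          have : c * k ≤ - k := by nlinarith
          omega
        omega
      rcases hc with hc | hc
      · rw [hc, zero_mul, add_zero] at hc1
        rw [hc, zero_add] at hM
        obtain ⟨j, hj⟩ : ∃ j : ℤ, (t + 1) / 2 = j := ⟨_, rfl⟩
        have e1 : t = 2 * j := by omega
        have e2 : t' = 2 * j - 1 := by omega
        rw [e1, e2] at hM
        have h3 := LC_inner α β q μ k j τ' τ (by omega) (by omega)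
        have h4 : LC α β q μ k (2 * j) τ - LC α β q μ k (2 * j - 1) τ' = - (μ + τ' - τ) := by
          rw [← h3]; ring
        rw [h4, dvd_neg] at hM
        exact not_dvd_of_bounds (by omega) (by omega) hM
      · rw [hc, one_mul] at hc1
        have e1 : t = 2 * k - 1 := by omega
        have e2 : t' = 0 := by omega
        rw [e1, e2, hc] at hM
        have h3 := LC_outer α β q μ k τ τ' hk'
        have h4 : 1 + (LC α β q μ k (2 * k - 1) τ - LC α β q μ k 0 τ') = μ + τ - τ' := by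
          rw [← h3]; ring
        rw [h4] at hM
        exact not_dvd_of_bounds (by omega) (by omega) hM
    rintro ⟨t, τ⟩ hx ⟨t', τ'⟩ hy hxy
    obtain ⟨a1, a2, a3, a4⟩ := hmem _ hx
    obtain ⟨b1, b2, b3, b4⟩ := hmem _ hy
    simp only at a1 a2 a3 a4 b1 b2 b3 b4
    have hd : (n : ℤ) ∣ C (t, τ) - C (t', τ') := by
      rw [← ZMod.intCast_zmod_eq_zero_iff_dvd]
      push_cast
      simp only at hxy
      rw [hxy, sub_self]
    have k1 := key t τ t' τ' a1 a2 a3 a4 b1 b2 b3 b4 hd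
    have hd' : (n : ℤ) ∣ C (t', τ') - C (t, τ) := by
      rw [← dvd_neg, neg_sub]; exact hd
    have k2 := key t' τ' t τ b1 b2 b3 b4 a1 a2 a3 a4 hd'
    have htt : t = t' := by omega
    subst htt
    rw [hnz, hC] at hd
    simp only at hd
    have h5 : β ((t + 1) / 2) + (q : ℤ) * LC α β q μ k t τ - (β ((t + 1) / 2) + q * LC α β q μ k t τ')
        = q * (τ - τ') := by
      rw [← LC_diff α β q μ k t τ τ']; ring
    rw [h5] at hd
    have hM := Int.dvd_of_mul_dvd_mul_left hq'.ne' hd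
    have : τ - τ' = 0 := Int.eq_zero_of_abs_lt_dvd hM (by rw [abs_lt]; constructor <;> omega)
    rw [Prod.mk.injEq]
    exact ⟨rfl, by omega⟩
  have hAbij : Set.BijOn (fun x => (R x : ZMod n)) (I : Set (ℤ × ℤ)) (A : Set (ZMod n)) :=
    ⟨fun x _ => hRA x, hRinj,
      Finset.surjOn_of_injOn_of_card_le _ (fun x _ => hRA x) hRinj (by rw [hcA, hIc])⟩
  have hBbij : Set.BijOn (fun x => (C x : ZMod n)) (I : Set (ℤ × ℤ)) (B : Set (ZMod n)) :=
    ⟨fun x _ => hCB x, hCinj,
      Finset.surjOn_of_injOn_of_card_le _ (fun x _ => hCB x) hCinj (by rw [hcB, hIc])⟩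
  -- sums
  have hsum : ∀ t τ : ℤ, R (t, τ) + C (t, τ) = pp α β t + q * (LR α β q μ k t τ + LC α β q μ k t τ) := by
    intro t τ
    rw [hR, hC]
    unfold pp
    simp only
    ring
  have keyS : ∀ t τ t' τ' : ℤ, 0 ≤ t → t < 2 * k → 0 ≤ τ → τ < μ → 0 ≤ t' → t' < 2 * k → 0 ≤ τ' →
      τ' < μ → (n : ℤ) ∣ (R (t, τ) + C (t, τ)) - (R (t', τ') + C (t', τ')) → ¬ (t' < t) := by
    intro t τ t' τ' a1 a2 a3 a4 b1 b2 b3 b4 hd hlt
    rw [hnz, hsum, hsum] at hd
    have hd1 : (q : ℤ) ∣ pp α β t - pp α β t' := by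
      have h1 : (q : ℤ) ∣ pp α β t + q * (LR α β q μ k t τ + LC α β q μ k t τ) -
          (pp α β t' + q * (LR α β q μ k t' τ' + LC α β q μ k t' τ')) :=
        dvd_trans (Dvd.intro _ rfl) hd
      have h2 : pp α β t - pp α β t' = (pp α β t + q * (LR α β q μ k t τ + LC α β q μ k t τ) -
        (pp α β t' + q * (LR α β q μ k t' τ' + LC α β q μ k t' τ'))) -
          q * ((LR α β q μ k t τ + LC α β q μ k t τ) - (LR α β q μ k t' τ' + LC α β q μ k t' τ')) := by
        ring
      rw [h2]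
      exact dvd_sub h1 (Dvd.intro _ rfl)
    obtain ⟨c, hc⟩ := hd1
    have hc2 : pp α β t = pp α β t' + c * q := by linarith
    have hM : 2 * (μ : ℤ) ∣ c + ((LR α β q μ k t τ + LC α β q μ k t τ) -
        (LR α β q μ k t' τ' + LC α β q μ k t' τ')) := by
      apply dvd_cases hq' hc2
      convert hd using 1
      ring
    have hlt1 : pp α β t' < pp α β t := pm hlt
    have hlt2 : pp α β t < pp α β t' + 2 * q := by
      rw [← pp_per hα hβ]
      apply pm
      omega
    have hc1 : c = 1 := by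
      have h1 : 0 < c := by
        by_contra hcon
        have : c * q ≤ 0 := by nlinarith
        omega
      have h2 : c < 2 := by
        by_contra hcon
        have : 2 * (q : ℤ) ≤ c * q := by nlinarith
        omega
      omega
    rw [hc1, one_mul] at hc2
    have ht0 : t ≠ 0 := by omega
    have ht0' : t' ≠ 0 := by
      intro h0
      rw [h0] at hc2
      exact hs t (by omega) a2 hc2.symm
    have hW : WW α β q μ t = μ - 1 := by
      unfold WW
      rw [if_pos ⟨t', b1, hc2.symm⟩]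
    have hW' : WW α β q μ t' = 0 := by
      unfold WW
      rw [if_neg]
      rintro ⟨s, s0, s1⟩
      have h1 : pp α β (s + 2 * k) = pp α β t := by
        rw [pp_per hα hβ, hc2, ← s1]; ring
      have := pm.injective h1
      omega
    rw [LR_add_LC _ _ _ _ _ _ _ ht0, LR_add_LC _ _ _ _ _ _ _ ht0', hW, hW', hc1] at hM
    have e : (1 : ℤ) + ((μ : ℤ) - 1 - τ - (0 - τ')) = μ - τ + τ' := by ring
    rw [e] at hM
    exact not_dvd_of_bounds (by omega) (by omega) hM
  obtain ⟨f, hf1, hf2, _⟩ := transfer hn0 I R C A B hAbij hBbij id (Set.bijOn_id _) (by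
    rintro ⟨t, τ⟩ hx ⟨t', τ'⟩ hy hd
    obtain ⟨a1, a2, a3, a4⟩ := hmem _ hx
    obtain ⟨b1, b2, b3, b4⟩ := hmem _ hy
    simp only at a1 a2 a3 a4 b1 b2 b3 b4
    simp only [id] at hd
    have k1 := keyS t τ t' τ' a1 a2 a3 a4 b1 b2 b3 b4 hd
    have hd' : (n : ℤ) ∣ (R (t', τ') + C (t', τ')) - (R (t, τ) + C (t, τ)) := by
      rw [← dvd_neg, neg_sub]; exact hd
    have k2 := keyS t' τ' t τ b1 b2 b3 b4 a1 a2 a3 a4 hd'
    have htt : t = t' := by omega
    subst htt
    rw [hnz, hsum, hsum] at hd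
    have h5 : LR α β q μ k t τ + LC α β q μ k t τ - (LR α β q μ k t τ' + LC α β q μ k t τ')
        = τ' - τ := by
      have := LR_diff α β q μ k t τ τ'
      have := LC_diff α β q μ k t τ τ'
      linarith
    have h6 : pp α β t + (q : ℤ) * (LR α β q μ k t τ + LC α β q μ k t τ) -
        (pp α β t + q * (LR α β q μ k t τ' + LC α β q μ k t τ')) = q * (τ' - τ) := by
      rw [← h5]; ring
    rw [h6] at hd
    have hM := Int.dvd_of_mul_dvd_mul_left hq'.ne' hd
    have : τ' - τ = 0 := Int.eq_zero_of_abs_lt_dvd hM (by rw [abs_lt]; constructor <;> omega)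
    rw [Prod.mk.injEq]
    exact ⟨rfl, by omega⟩)
  exact ⟨f, hf1, hf2⟩

end Pool.Agent.Helper73.SN
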